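import Mathlib
import Pool.Agent.H847R3.XpXqE

/-!
Furstenberg's topological theorem in full: an infinite closed subset of the circle which is mapped
into itself by `x ↦ p x` and `x ↦ q x` is the whole circle.
-/

set_option autoImplicit false

open Filter Topology Set
open Pool.Agent.H847R3.XpXq

namespace Pool.Agent.R477.XQ

theorem furst {p q : ℕ} (hp : 2 ≤ p) (hq : 2 ≤ q)
    (hirr : Irrational (Real.log p / Real.log q)) {X : Set TT} (hXc : IsClosed X)
    (hXinv : Inv p q X) (hinf : X.Infinite) : X = univ := by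
  set Z : Set TT := {z | ∀ ε : ℝ, 0 < ε → ∃ x ∈ X, x ≠ z ∧ dist x z < ε} with hZ
  have hZc : IsClosed Z := by
    rw [← closure_subset_iff_isClosed]
    intro z hz ε hε
    obtain ⟨z', hz', hd⟩ := Metric.mem_closure_iff.1 hz (ε / 2) (by positivity)
    by_cases h : z' = z
    · subst h
      exact hz' ε hε
    · have h0 : 0 < dist z z' := dist_pos.2 (Ne.symm h)
      obtain ⟨x, hx, hxz, hd'⟩ := hz' (min (ε / 2) (dist z z')) (lt_min (by positivity) h0)
      refine ⟨x, hx, ?_, ?_⟩
      · rintro rfl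
        exact absurd (lt_of_lt_of_le hd' (min_le_right _ _)) (lt_irrefl _)
      · calc dist x z ≤ dist x z' + dist z z' := dist_triangle_right _ _ _
          _ < ε / 2 + ε / 2 := add_lt_add (lt_of_lt_of_le hd' (min_le_left _ _)) hd
          _ = ε := by ring
  have hmul : ∀ (s : ℕ), 1 ≤ s → (∀ x ∈ X, s • x ∈ X) → ∀ z ∈ Z, s • z ∈ Z := by
    intro s hs hsX z hz ε hε
    have hs0 : (0 : ℝ) < s := by exact_mod_cast hs
    obtain ⟨x, hx, hxz, hd⟩ := hz (min (ε / s) (1 / s)) (lt_min (by positivity) (by positivity))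
    obtain ⟨r, hr, hrn⟩ := exists_rep_norm (x - z)
    rw [dist_eq_norm] at hd
    have hr1 : s * |r| < ε := by
      have := lt_of_lt_of_le hd (min_le_left _ _)
      rw [← hrn, lt_div_iff₀ hs0] at this
      linarith
    have hr2 : s * |r| < 1 := by
      have := lt_of_lt_of_le hd (min_le_right _ _)
      rw [← hrn, lt_div_iff₀ hs0] at this
      linarith
    have e : s • x - s • z = ((s * r : ℝ) : TT) := by
      rw [← nsmul_sub, ← hr, ← AddCircle.coe_nsmul, nsmul_eq_mul]
    refine ⟨s • x, hsX x hx, ?_, ?_⟩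
    · intro heq
      rw [← sub_eq_zero, e, AddCircle.coe_eq_zero_iff] at heq
      obtain ⟨n, hn⟩ := heq
      simp only [zsmul_eq_mul, mul_one] at hn
      have h1 : |(n : ℝ)| < 1 := by rw [hn, abs_mul, abs_of_pos hs0]; exact hr2
      have h2 : n = 0 := by
        have : |n| < 1 := by exact_mod_cast h1
        exact Int.abs_lt_one_iff.1 this
      rw [h2] at hn
      have h3 : r = 0 := by
        have : (s : ℝ) * r = 0 := by rw [← hn]; simp
        rcases mul_eq_zero.1 this with h | h
        · exact absurd h hs0.ne'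
        · exact h
      rw [h3] at hrn
      apply hxz
      rw [← sub_eq_zero, ← norm_eq_zero, ← hrn]; simp
    · rw [dist_eq_norm, e]
      have := dist_coe_le (s * r) 0
      rw [AddCircle.coe_zero, dist_zero_right, sub_zero, abs_mul, abs_of_pos hs0] at this
      linarith
  have hZinv : Inv p q Z := fun z hz =>
    ⟨hmul p (by omega) (fun x hx => (hXinv x hx).1) z hz,
      hmul q (by omega) (fun x hx => (hXinv x hx).2) z hz⟩
  have hZne : Z.Nonempty := by
    obtain ⟨z, hz⟩ := hinf.exists_accPt_principal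
    rw [accPt_iff_nhds] at hz
    refine ⟨z, fun ε hε => ?_⟩
    obtain ⟨x, ⟨hx1, hx2⟩, hx3⟩ := hz _ (Metric.ball_mem_nhds z hε)
    exact ⟨x, hx2, hx3, hx1⟩
  obtain ⟨r, hrZ, hr⟩ := exists_torsion hp hq hirr hZc hZne hZinv
  obtain ⟨a, t, ht, htr, hcop⟩ := exists_coprime (m := p * q) (by nlinarith) hr
  have hr' : ((p * q) ^ a) • r ∈ Z := by
    rw [mul_pow]; exact hZinv.smul hrZ a a
  exact acc_torsion hp hq hirr hXc hXinv ht htr
    (Nat.Coprime.coprime_mul_right hcop) (Nat.Coprime.coprime_mul_left hcop) hr'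

end Pool.Agent.R477.XQ
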