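import Mathlib
import Pool.Agent.R477.XQ.Furst

/-!
Overlap of an invariant measure with a translate of another one.
-/

set_option autoImplicit false

open MeasureTheory Filter Topology Set
open Pool.Agent.H847R3.XpXq
open scoped ENNReal NNReal

namespace Pool.Agent.R477.XQ

/-- the overlap of the image of `μ` under `a` and of the image of `ν` under `x ↦ b x + θ` is at
least `c` -/
def Ov (c : ℝ≥0) (a b : ℤ) (μ ν : Measure T) (θ : T) : Prop :=
  ∀ A : Set T, MeasurableSet A → (c : ℝ≥0∞) ≤ μ {x | a • x ∈ A} + ν {x | b • x + θ ∉ A}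

/-- the same with continuous functions in place of sets -/
def OvF (c : ℝ≥0) (a b : ℤ) (μ ν : Measure T) (θ : T) : Prop :=
  ∀ f : C(T, ℝ), (∀ x, 0 ≤ f x) → (∀ x, f x ≤ 1) →
    (c : ℝ) ≤ ∫ x, f (a • x) ∂μ + ∫ x, (1 - f (b • x + θ)) ∂ν

lemma meas_aff (b : ℤ) (θ : T) : Measurable (fun x : T => b • x + θ) :=
  (meas_zsmul b).add_const θ

lemma cont_aff (b : ℤ) (θ : T) : Continuous (fun x : T => b • x + θ) :=
  (continuous_zsmul b).add continuous_const

lemma inf_univ {c : ℝ≥0} {a b : ℤ} {μ ν : Measure T} {θ : T} (h : Ov c a b μ ν θ) :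
    (c : ℝ≥0∞) ≤ (μ.map (fun x : T => a • x) ⊓ ν.map (fun x : T => b • x + θ)) univ := by
  rw [Measure.inf_apply MeasurableSet.univ]
  refine le_sInf ?_
  rintro m ⟨t, rfl⟩
  simp only [inter_univ]
  set t' := toMeasurable (μ.map (fun x : T => a • x)) t with ht'
  have h1 : μ.map (fun x : T => a • x) t = μ.map (fun x : T => a • x) t' :=
    (measure_toMeasurable t).symm
  have h2 : ν.map (fun x : T => b • x + θ) t'ᶜ ≤ ν.map (fun x : T => b • x + θ) tᶜ :=
    measure_mono (compl_subset_compl.2 (subset_toMeasurable _ _))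
  have hm : MeasurableSet t' := measurableSet_toMeasurable _ _
  have h3 := h t' hm
  rw [h1]
  refine le_trans ?_ (add_le_add_right h2 _)
  rw [Measure.map_apply (meas_zsmul a) hm, Measure.map_apply (meas_aff b θ) hm.compl]
  exact h3

lemma ovF_of_ov {c : ℝ≥0} {a b : ℤ} {μ ν : Measure T} [IsProbabilityMeasure μ]
    [IsProbabilityMeasure ν] {θ : T} (h : Ov c a b μ ν θ) : OvF c a b μ ν θ := by
  intro f hf0 hf1
  set μ1 := μ.map (fun x : T => a • x) with hμ1
  set ν1 := ν.map (fun x : T => b • x + θ) with hν1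
  have i1 : IsProbabilityMeasure μ1 := Measure.isProbabilityMeasure_map (meas_zsmul a).aemeasurable
  have i2 : IsProbabilityMeasure ν1 := Measure.isProbabilityMeasure_map (meas_aff b θ).aemeasurable
  set κ := μ1 ⊓ ν1 with hκ
  have hκμ : κ ≤ μ1 := inf_le_left
  have hκν : κ ≤ ν1 := inf_le_right
  have i3 : IsFiniteMeasure κ := isFiniteMeasure_of_le μ1 hκμ
  have e1 : ∫ x, f (a • x) ∂μ = ∫ x, f x ∂μ1 := by
    rw [hμ1, integral_map (meas_zsmul a).aemeasurable f.continuous.aestronglyMeasurable]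
  have hc1 : Continuous fun x : T => 1 - f x := continuous_const.sub f.continuous
  have e2 : ∫ x, (1 - f (b • x + θ)) ∂ν = ∫ x, (1 - f x) ∂ν1 := by
    rw [hν1, integral_map (meas_aff b θ).aemeasurable hc1.aestronglyMeasurable]
  rw [e1, e2]
  have k1 : ∫ x, f x ∂κ ≤ ∫ x, f x ∂μ1 :=
    integral_mono_measure hκμ (Eventually.of_forall hf0) (integrable_of_cont f.continuous _)
  have k2 : ∫ x, (1 - f x) ∂κ ≤ ∫ x, (1 - f x) ∂ν1 :=
    integral_mono_measure hκν (Eventually.of_forall fun x => sub_nonneg.2 (hf1 x))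
      (integrable_of_cont hc1 _)
  have k3 : ∫ x, f x ∂κ + ∫ x, (1 - f x) ∂κ = κ.real univ := by
    rw [← integral_add (integrable_of_cont f.continuous _) (integrable_of_cont hc1 _)]
    simp
  have k4 : (c : ℝ) ≤ κ.real univ := by
    have := inf_univ h
    rw [Measure.real]
    rw [← ENNReal.coe_toReal]
    exact ENNReal.toReal_mono (measure_ne_top _ _) this
  linarith

lemma ov_of_ovF {c : ℝ≥0} {a b : ℤ} {μ ν : Measure T} [IsProbabilityMeasure μ]
    [IsProbabilityMeasure ν] {θ : T} (h : OvF c a b μ ν θ) : Ov c a b μ ν θ := by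
  intro A hA
  set μ1 := μ.map (fun x : T => a • x) with hμ1
  set ν1 := ν.map (fun x : T => b • x + θ) with hν1
  have i1 : IsProbabilityMeasure μ1 := Measure.isProbabilityMeasure_map (meas_zsmul a).aemeasurable
  have i2 : IsProbabilityMeasure ν1 := Measure.isProbabilityMeasure_map (meas_aff b θ).aemeasurable
  have g1 : μ {x | a • x ∈ A} = μ1 A := (Measure.map_apply (meas_zsmul a) hA).symm
  have g2 : ν {x | b • x + θ ∉ A} = ν1 Aᶜ := (Measure.map_apply (meas_aff b θ) hA.compl).symm
  rw [g1, g2]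
  refine ENNReal.le_of_forall_pos_le_add fun ε hε _ => ?_
  have hε2 : ((ε / 2 : ℝ≥0) : ℝ≥0∞) ≠ 0 := by
    have : (0 : ℝ≥0) < ε / 2 := by positivity
    exact_mod_cast this.ne'
  obtain ⟨U, hAU, hU, hμU⟩ := A.exists_isOpen_lt_add (μ := μ1) (measure_ne_top _ _) hε2
  obtain ⟨V, hAV, hV, hνV⟩ := (Aᶜ).exists_isOpen_lt_add (μ := ν1) (measure_ne_top _ _) hε2
  -- `Vᶜ ⊆ A ⊆ U`
  have hd : Disjoint Uᶜ Vᶜ := by
    rw [disjoint_left]
    intro x hx hxV
    exact hx (hAU (by by_contra hc; exact hxV (hAV hc)))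
  obtain ⟨f, hf0, hf1, hf⟩ := exists_continuous_zero_one_of_isClosed hU.isClosed_compl
    hV.isClosed_compl hd
  have hfi : ∀ x, 0 ≤ f x ∧ f x ≤ 1 := fun x => hf x
  have hh := h f (fun x => (hfi x).1) (fun x => (hfi x).2)
  have e1 : ∫ x, f (a • x) ∂μ = ∫ x, f x ∂μ1 := by
    rw [hμ1, integral_map (meas_zsmul a).aemeasurable f.continuous.aestronglyMeasurable]
  have hc1 : Continuous fun x : T => 1 - f x := continuous_const.sub f.continuous
  have e2 : ∫ x, (1 - f (b • x + θ)) ∂ν = ∫ x, (1 - f x) ∂ν1 := by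
    rw [hν1, integral_map (meas_aff b θ).aemeasurable hc1.aestronglyMeasurable]
  rw [e1, e2] at hh
  have k1 : ∫ x, f x ∂μ1 ≤ μ1.real U := by
    have : ∫ x, f x ∂μ1 ≤ ∫ x, U.indicator (fun _ => (1 : ℝ)) x ∂μ1 := by
      refine integral_mono (integrable_of_cont f.continuous _)
        ((integrable_const _).indicator hU.measurableSet) fun x => ?_
      by_cases hx : x ∈ U
      · rw [indicator_of_mem hx]; exact (hfi x).2
      · rw [indicator_of_notMem hx]
        exact (hf0 hx).le
    rwa [integral_indicator_const _ hU.measurableSet, smul_eq_mul, mul_one] at this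
  have k2 : ∫ x, (1 - f x) ∂ν1 ≤ ν1.real V := by
    have : ∫ x, (1 - f x) ∂ν1 ≤ ∫ x, V.indicator (fun _ => (1 : ℝ)) x ∂ν1 := by
      refine integral_mono (integrable_of_cont hc1 _)
        ((integrable_const _).indicator hV.measurableSet) fun x => ?_
      by_cases hx : x ∈ V
      · rw [indicator_of_mem hx]; show 1 - f x ≤ 1; linarith [(hfi x).1]
      · rw [indicator_of_notMem hx]
        have : f x = 1 := hf1 hx
        show 1 - f x ≤ 0
        rw [this]; simp
    rwa [integral_indicator_const _ hV.measurableSet, smul_eq_mul, mul_one] at this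
  have k3 : (c : ℝ≥0∞) ≤ μ1 U + ν1 V := by
    rw [← ENNReal.toReal_le_toReal ENNReal.coe_ne_top
      (ENNReal.add_ne_top.2 ⟨measure_ne_top _ _, measure_ne_top _ _⟩),
      ENNReal.toReal_add (measure_ne_top _ _) (measure_ne_top _ _), ENNReal.coe_toReal]
    exact hh.trans (add_le_add k1 k2)
  calc (c : ℝ≥0∞) ≤ μ1 U + ν1 V := k3
    _ ≤ (μ1 A + (ε / 2 : ℝ≥0)) + (ν1 Aᶜ + (ε / 2 : ℝ≥0)) := add_le_add hμU.le hνV.le
    _ = μ1 A + ν1 Aᶜ + ((ε / 2 : ℝ≥0) + (ε / 2 : ℝ≥0)) := by ring
    _ = μ1 A + ν1 Aᶜ + ε := by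
      congr 1
      rw [← ENNReal.coe_add, add_halves]

lemma Ov.smul {c : ℝ≥0} {a b : ℤ} {μ ν : Measure T} {θ : T} (h : Ov c a b μ ν θ) {s : ℕ}
    (hμ : MeasurePreserving (fun x : T => s • x) μ μ)
    (hν : MeasurePreserving (fun x : T => s • x) ν ν) : Ov c a b μ ν (s • θ) := by
  intro A hA
  have h1 := h ((fun x : T => s • x) ⁻¹' A) (meas_smul s hA)
  have e1 : μ {x | a • x ∈ (fun x : T => s • x) ⁻¹' A} = μ {x | a • x ∈ A} := by
    have := hμ.measure_preimage ((meas_zsmul a) hA).nullMeasurableSet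
    refine Eq.trans ?_ this
    congr 1
    ext x
    simp only [mem_preimage, mem_ofPred_eq]
    rw [smul_comm]
  have e2 : ν {x | b • x + θ ∉ (fun x : T => s • x) ⁻¹' A} = ν {x | b • x + s • θ ∉ A} := by
    have := hν.measure_preimage ((meas_aff b (s • θ)) hA.compl).nullMeasurableSet
    refine Eq.trans ?_ this
    congr 1
    ext x
    simp only [mem_preimage, mem_ofPred_eq, mem_compl_iff]
    rw [nsmul_add, smul_comm s b x]
  rw [e1, e2] at h1
  exact h1

lemma ovF_limit {c : ℝ≥0} {a b : ℤ} {μ ν : ℕ → ProbabilityMeasure T} {μ' ν' : ProbabilityMeasure T}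
    {θ : ℕ → T} {θ' : T} (hμ : Tendsto μ atTop (𝓝 μ')) (hν : Tendsto ν atTop (𝓝 ν'))
    (hθ : Tendsto θ atTop (𝓝 θ')) (h : ∀ n, OvF c a b (μ n : Measure T) (ν n : Measure T) (θ n)) :
    OvF c a b (μ' : Measure T) (ν' : Measure T) θ' := by
  intro f hf0 hf1
  have hfa : Continuous fun x : T => f (a • x) := f.continuous.comp (continuous_zsmul a)
  have hfb : Continuous fun x : T => 1 - f (b • x + θ') :=
    continuous_const.sub (f.continuous.comp (cont_aff b θ'))
  have t1 : Tendsto (fun n => ∫ x, f (a • x) ∂(μ n : Measure T)) atTop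
      (𝓝 (∫ x, f (a • x) ∂(μ' : Measure T))) :=
    (ProbabilityMeasure.tendsto_iff_forall_integral_tendsto.1 hμ)
      (BoundedContinuousFunction.mkOfCompact ⟨_, hfa⟩)
  have t2 : Tendsto (fun n => ∫ x, (1 - f (b • x + θ')) ∂(ν n : Measure T)) atTop
      (𝓝 (∫ x, (1 - f (b • x + θ')) ∂(ν' : Measure T))) :=
    (ProbabilityMeasure.tendsto_iff_forall_integral_tendsto.1 hν)
      (BoundedContinuousFunction.mkOfCompact ⟨_, hfb⟩)
  have t3 : Tendsto (fun n => ∫ x, (f (b • x + θ') - f (b • x + θ n)) ∂(ν n : Measure T)) atTop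
      (𝓝 0) := by
    rw [Metric.tendsto_atTop]
    intro ε hε
    have huc : UniformContinuous f := CompactSpace.uniformContinuous_of_continuous f.continuous
    obtain ⟨δ, hδ, hδf⟩ := Metric.uniformContinuous_iff.1 huc (ε / 2) (by positivity)
    obtain ⟨N, hN⟩ := Metric.tendsto_atTop.1 hθ δ hδ
    refine ⟨N, fun n hn => ?_⟩
    rw [dist_zero_right]
    have hb : ∀ x : T, ‖f (b • x + θ') - f (b • x + θ n)‖ ≤ ε / 2 := by
      intro x
      rw [← dist_eq_norm]
      refine (hδf ?_).le
      rw [dist_add_left, dist_comm]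
      exact hN n hn
    calc ‖∫ x, (f (b • x + θ') - f (b • x + θ n)) ∂(ν n : Measure T)‖
        ≤ (ε / 2) * (ν n : Measure T).real univ :=
          norm_integral_le_of_norm_le_const (Eventually.of_forall hb)
      _ = ε / 2 := by simp
      _ < ε := by linarith
  have hsum : Tendsto (fun n => ∫ x, f (a • x) ∂(μ n : Measure T)
      + ∫ x, (1 - f (b • x + θ n)) ∂(ν n : Measure T)) atTop
      (𝓝 (∫ x, f (a • x) ∂(μ' : Measure T) + ∫ x, (1 - f (b • x + θ')) ∂(ν' : Measure T))) := by
    have := t1.add (t2.add t3)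
    rw [add_zero] at this
    refine this.congr fun n => ?_
    congr 1
    rw [← integral_add (integrable_of_cont hfb _)]
    · congr 1
      funext x
      ring
    · exact integrable_of_cont ((f.continuous.comp (cont_aff b θ')).sub
        (f.continuous.comp (cont_aff b (θ n)))) _
  exact ge_of_tendsto' hsum fun n => h n f hf0 hf1

/-- the part of an invariant measure proportional to Lebesgue measure does not grow under
multiplication by `a` -/
lemma leb_part {p : ℕ} (hp : 2 ≤ p) {μ : Measure T} [IsFiniteMeasure μ]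
    (hμ : MeasurePreserving (fun x : T => p • x) μ μ) {a : ℤ} (ha : a ≠ 0) {c : ℝ≥0∞}
    (h : c • (volume : Measure T) ≤ μ.map (fun x : T => a • x)) :
    c • (volume : Measure T) ≤ μ := by
  have herg : Ergodic (fun y : T => p • y) := AddCircle.ergodic_nsmul (by omega)
  have hac := hμ.withDensity_rnDeriv herg.toMeasurePreserving
  have i1 : IsFiniteMeasure ((volume : Measure T).withDensity (μ.rnDeriv volume)) :=
    isFiniteMeasure_of_le μ (Measure.withDensity_rnDeriv_le μ volume)
  obtain ⟨e, he⟩ := herg.eq_smul_of_absolutelyContinuous hac (withDensity_absolutelyContinuous _ _)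
  have hdec : μ.singularPart volume + e • (volume : Measure T) = μ := by
    rw [← he]; exact Measure.singularPart_add_rnDeriv μ volume
  have hsing := sing_map ha (Measure.mutuallySingular_singularPart μ (volume : Measure T))
  have hmap : μ.map (fun x : T => a • x)
      = (μ.singularPart volume).map (fun x : T => a • x) + e • (volume : Measure T) := by
    conv_lhs => rw [← hdec]
    rw [Measure.map_add _ _ (meas_zsmul a), Measure.map_smul, (mp_vol ha).map_eq]
  rw [hmap] at h
  obtain ⟨S, hS, hS1, hS2⟩ := hsing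
  have h2 : c • (volume : Measure T) ≤ e • (volume : Measure T) := by
    refine Measure.le_intro fun A hA _ => ?_
    have k1 : (c • (volume : Measure T)) A = (c • (volume : Measure T)) (A ∩ S) := by
      simp only [Measure.smul_apply]
      congr 1
      have hle : (volume : Measure T) A ≤ (volume : Measure T) (A ∩ S) := by
        calc (volume : Measure T) A ≤ (volume : Measure T) (A ∩ S ∪ Sᶜ) := by
              refine measure_mono fun x hx => ?_
              by_cases hxS : x ∈ S
              · exact Or.inl ⟨hx, hxS⟩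
              · exact Or.inr hxS
          _ ≤ (volume : Measure T) (A ∩ S) + (volume : Measure T) Sᶜ := measure_union_le _ _
          _ = (volume : Measure T) (A ∩ S) := by rw [hS2, add_zero]
      exact le_antisymm hle (measure_mono inter_subset_left)
    have k2 := h (A ∩ S)
    rw [Measure.add_apply, measure_mono_null inter_subset_right hS1, zero_add] at k2
    rw [k1]
    exact k2.trans (measure_mono inter_subset_left)
  calc c • (volume : Measure T) ≤ e • (volume : Measure T) := h2
    _ = (volume : Measure T).withDensity (μ.rnDeriv volume) := he.symm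
    _ ≤ μ := Measure.withDensity_rnDeriv_le μ volume

/-- an irrational translate with overlap `c` -/
lemma irr_case {p q : ℕ} (hp : 2 ≤ p) (hq : 2 ≤ q)
    (hirr : Irrational (Real.log p / Real.log q)) {μ ν : Measure T} [IsProbabilityMeasure μ]
    [IsProbabilityMeasure ν]
    (hμp : MeasurePreserving (fun x : T => p • x) μ μ)
    (hμq : MeasurePreserving (fun x : T => q • x) μ μ)
    (hνp : MeasurePreserving (fun x : T => p • x) ν ν)
    (hνq : MeasurePreserving (fun x : T => q • x) ν ν) {a b : ℤ} (ha : a ≠ 0) (hb : b ≠ 0)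
    {θ : T} (hθ : ¬ IsOfFinAddOrder θ) {c : ℝ≥0} (h : Ov c a b μ ν θ) :
    (c : ℝ≥0∞) • (volume : Measure T) ≤ μ ∧ (c : ℝ≥0∞) • (volume : Measure T) ≤ ν := by
  set μ1 := μ.map (fun x : T => a • x) with hμ1
  set ν0 := ν.map (fun x : T => b • x) with hν0
  set ν1 := ν.map (fun x : T => b • x + θ) with hν1
  have i1 : IsProbabilityMeasure μ1 := Measure.isProbabilityMeasure_map (meas_zsmul a).aemeasurable
  have i2 : IsProbabilityMeasure ν1 := Measure.isProbabilityMeasure_map (meas_aff b θ).aemeasurable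
  have i0 : IsProbabilityMeasure ν0 := Measure.isProbabilityMeasure_map (meas_zsmul b).aemeasurable
  set κ := μ1 ⊓ ν1 with hκ
  have hκμ : κ ≤ μ1 := inf_le_left
  have hκν : κ ≤ ν1 := inf_le_right
  have i3 : IsFiniteMeasure κ := isFiniteMeasure_of_le μ1 hκμ
  have hmY : Measurable (fun x : T => x - θ) := measurable_sub_const θ
  have hX : κ.map (fun x : T => x) ≤ μ1 := by
    have : κ.map (fun x : T => x) = κ := Measure.map_id
    rw [this]; exact hκμ
  have hY : κ.map (fun x : T => x - θ) ≤ ν0 := by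
    have e : ν0 = ν1.map (fun x : T => x - θ) := by
      rw [hν1, Measure.map_map hmY (meas_aff b θ), hν0]
      congr 1
      funext x
      simp
    rw [e]
    exact Measure.map_mono hκν hmY
  have hθ' : ¬ IsOfFinAddOrder (-θ) := by
    intro hf
    exact hθ (by simpa using hf.neg)
  obtain ⟨k1, k2⟩ := core_measure hp (mp_map hμp a) (mp_map hμq a) (mp_map hνp b) (mp_map hνq b)
    measurable_id hmY hX hY (dense_orbit hp hq hirr hθ') (m := fun _ => 1)
    (fun k => ⟨0, 0, by simp⟩) (by
      refine Eventually.of_forall fun x => ?_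
      simp)
  have hc : (c : ℝ≥0∞) ≤ κ univ := inf_univ h
  have hle : (c : ℝ≥0∞) • (volume : Measure T) ≤ κ univ • (volume : Measure T) := by
    refine Measure.le_intro fun A _ _ => ?_
    simp only [Measure.smul_apply, smul_eq_mul]
    gcongr
  exact ⟨leb_part hp hμp ha (hle.trans k1), leb_part hp hνp hb (hle.trans k2)⟩

lemma closure_inv {p q : ℕ} {X : Set T} (h : Inv p q X) : Inv p q (closure X) := fun _ hx =>
  ⟨map_mem_closure (continuous_const_smul p) hx fun y hy => (h y hy).1,
    map_mem_closure (continuous_const_smul q) hx fun y hy => (h y hy).2⟩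

/-- **Main theorem, sequence form.** -/
theorem main_seq {p q : ℕ} (hp : 2 ≤ p) (hq : 2 ≤ q)
    (hirr : Irrational (Real.log p / Real.log q)) {a b : ℤ} (ha : a ≠ 0) (hb : b ≠ 0)
    {μ ν : ℕ → ProbabilityMeasure T} {μ' ν' : ProbabilityMeasure T} {θ : ℕ → T} {c : ℝ≥0}
    (hμp : ∀ n, MeasurePreserving (fun x : T => p • x) (μ n : Measure T) (μ n : Measure T))
    (hμq : ∀ n, MeasurePreserving (fun x : T => q • x) (μ n : Measure T) (μ n : Measure T))
    (hνp : ∀ n, MeasurePreserving (fun x : T => p • x) (ν n : Measure T) (ν n : Measure T))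
    (hνq : ∀ n, MeasurePreserving (fun x : T => q • x) (ν n : Measure T) (ν n : Measure T))
    (hμ : Tendsto μ atTop (𝓝 μ')) (hν : Tendsto ν atTop (𝓝 ν')) (hθ : Function.Injective θ)
    (h : ∀ n, Ov c a b (μ n : Measure T) (ν n : Measure T) (θ n)) :
    (c : ℝ≥0∞) • (volume : Measure T) ≤ (μ' : Measure T) ∧
      (c : ℝ≥0∞) • (volume : Measure T) ≤ (ν' : Measure T) := by
  -- the limits are invariant
  have hinv : ∀ (s : ℕ) (κ : ℕ → ProbabilityMeasure T) (κ' : ProbabilityMeasure T),
      (∀ n, MeasurePreserving (fun x : T => s • x) (κ n : Measure T) (κ n : Measure T)) →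
      Tendsto κ atTop (𝓝 κ') →
      MeasurePreserving (fun x : T => s • x) (κ' : Measure T) (κ' : Measure T) := by
    intro s κ κ' hκ hlim
    refine ⟨meas_smul s, ?_⟩
    have hc : Continuous fun x : T => s • x := continuous_const_smul s
    have t1 := ProbabilityMeasure.tendsto_map_of_tendsto_of_continuous κ κ' hlim hc
    have e1 : (fun n => (κ n).map hc.measurable.aemeasurable) = κ := by
      funext n
      apply Subtype.ext
      exact (hκ n).map_eq
    have t2 : Tendsto κ atTop (𝓝 (κ'.map hc.measurable.aemeasurable)) := by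
      rw [← e1] 
      exact t1
    have := tendsto_nhds_unique hlim t2
    exact (congrArg (fun m : ProbabilityMeasure T => (m : Measure T)) this).symm
  have hF : ∀ n, Inv p q {t : T | Ov c a b (μ n : Measure T) (ν n : Measure T) t} := fun n t ht =>
    ⟨Ov.smul ht (hμp n) (hνp n), Ov.smul ht (hμq n) (hνq n)⟩
  have hX : ∀ N : ℕ, closure (⋃ n ∈ {n : ℕ | N ≤ n},
      {t : T | Ov c a b (μ n : Measure T) (ν n : Measure T) t}) = univ := by
    intro N
    refine furst hp hq hirr isClosed_closure (closure_inv ?_) ?_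
    · intro t ht
      obtain ⟨n, hn, hnt⟩ := mem_iUnion₂.1 ht
      exact ⟨mem_iUnion₂.2 ⟨n, hn, (hF n t hnt).1⟩, mem_iUnion₂.2 ⟨n, hn, (hF n t hnt).2⟩⟩
    · refine Infinite.mono subset_closure ?_
      refine Set.infinite_of_injective_forall_mem (f := fun n => θ (n + N))
        (fun i j hij => by have := hθ hij; omega) fun n => ?_
      exact mem_iUnion₂.2 ⟨n + N, Nat.le_add_left _ _, h _⟩
  set θ0 : T := ((Real.sqrt 2 : ℝ) : T) with hθ0
  have hθ0' : ¬ IsOfFinAddOrder θ0 := not_fin irrational_sqrt_two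
  have hex : ∀ N : ℕ, ∃ n : ℕ, N ≤ n ∧ ∃ t : T, Ov c a b (μ n : Measure T) (ν n : Measure T) t ∧
      dist θ0 t < 1 / ((N : ℝ) + 1) := by
    intro N
    have h0 : θ0 ∈ closure (⋃ n ∈ {n : ℕ | N ≤ n},
      {t : T | Ov c a b (μ n : Measure T) (ν n : Measure T) t}) := by rw [hX N]; trivial
    obtain ⟨t, ht, htd⟩ := Metric.mem_closure_iff.1 h0 (1 / ((N : ℝ) + 1)) (by positivity)
    obtain ⟨n, hn, hnt⟩ := mem_iUnion₂.1 ht
    exact ⟨n, hn, t, hnt, htd⟩
  choose n hn t ht htd using hex
  have hnt : Tendsto n atTop atTop := tendsto_atTop_mono hn tendsto_id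
  have htt : Tendsto t atTop (𝓝 θ0) := by
    rw [tendsto_iff_dist_tendsto_zero]
    refine squeeze_zero (fun _ => dist_nonneg) (fun N => ?_) tendsto_one_div_add_atTop_nhds_zero_nat
    rw [dist_comm]
    exact (htd N).le
  have hlim : OvF c a b (μ' : Measure T) (ν' : Measure T) θ0 :=
    ovF_limit (μ := fun k => μ (n k)) (ν := fun k => ν (n k)) (hμ.comp hnt) (hν.comp hnt) htt
      fun k => ovF_of_ov (ht k)
  exact irr_case hp hq hirr (hinv p μ μ' hμp hμ) (hinv q μ μ' hμq hμ) (hinv p ν ν' hνp hν)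
    (hinv q ν ν' hνq hν) ha hb hθ0' (ov_of_ovF hlim)

/-- **Main theorem, one measure against all.** -/
theorem main_fin {p q : ℕ} (hp : 2 ≤ p) (hq : 2 ≤ q)
    (hirr : Irrational (Real.log p / Real.log q)) {a b : ℤ} (ha : a ≠ 0) (hb : b ≠ 0)
    {μ : Measure T} [hprob : IsProbabilityMeasure μ]
    (hμp : MeasurePreserving (fun x : T => p • x) μ μ)
    (hμq : MeasurePreserving (fun x : T => q • x) μ μ) {c : ℝ≥0}
    (hc : ¬ ((c : ℝ≥0∞) • (volume : Measure T) ≤ μ)) :
    {θ : T | ∃ ν : Measure T, IsProbabilityMeasure ν ∧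
      MeasurePreserving (fun x : T => p • x) ν ν ∧ MeasurePreserving (fun x : T => q • x) ν ν ∧
      Ov c a b μ ν θ}.Finite := by
  by_contra hinf
  rw [Set.not_finite] at hinf
  set E := {θ : T | ∃ ν : Measure T, IsProbabilityMeasure ν ∧
      MeasurePreserving (fun x : T => p • x) ν ν ∧ MeasurePreserving (fun x : T => q • x) ν ν ∧
      Ov c a b μ ν θ} with hE
  set θ : ℕ → T := fun n => (hinf.natEmbedding E n : T) with hθ
  have hθi : Function.Injective θ := fun i j hij =>
    (hinf.natEmbedding E).injective (Subtype.ext hij)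
  have hθE : ∀ n, θ n ∈ E := fun n => (hinf.natEmbedding E n).2
  choose ν hν1 hν2 hν3 hν4 using hθE
  set νP : ℕ → ProbabilityMeasure T := fun n => ⟨ν n, hν1 n⟩ with hνP
  obtain ⟨ν', φ, hφ, hlim⟩ := CompactSpace.tendsto_subseq νP
  have := main_seq hp hq hirr ha hb (μ := fun _ => ⟨μ, hprob⟩) (ν := fun k => νP (φ k))
    (μ' := ⟨μ, hprob⟩) (ν' := ν') (θ := fun k => θ (φ k)) (c := c) (fun _ => hμp) (fun _ => hμq)
    (fun k => hν2 (φ k)) (fun k => hν3 (φ k)) tendsto_const_nhds hlim
    (hθi.comp hφ.injective) (fun k => hν4 (φ k))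
  exact hc this.1

/-- **Main theorem, one measure against all, both directions.** -/
theorem main_iff {p q : ℕ} (hp : 2 ≤ p) (hq : 2 ≤ q)
    (hirr : Irrational (Real.log p / Real.log q)) {a b : ℤ} (ha : a ≠ 0) (hb : b ≠ 0)
    {μ : Measure T} [hprob : IsProbabilityMeasure μ]
    (hμp : MeasurePreserving (fun x : T => p • x) μ μ)
    (hμq : MeasurePreserving (fun x : T => q • x) μ μ) {c : ℝ≥0} :
    {θ : T | ∃ ν : Measure T, IsProbabilityMeasure ν ∧
      MeasurePreserving (fun x : T => p • x) ν ν ∧ MeasurePreserving (fun x : T => q • x) ν ν ∧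
      Ov c a b μ ν θ}.Finite ↔ ¬ ((c : ℝ≥0∞) • (volume : Measure T) ≤ μ) := by
  refine ⟨fun hfin hle => ?_, main_fin hp hq hirr ha hb hμp hμq⟩
  have hc1 : (c : ℝ≥0∞) ≤ 1 := by
    have := hle univ
    simpa using this
  have hall : ∀ θ : T, Ov c a b μ volume θ := by
    intro θ A hA
    have e1 : (volume : Measure T) {x | a • x ∈ A} = volume A :=
      (mp_vol ha).measure_preimage hA.nullMeasurableSet
    have e2 : (volume : Measure T) {x | b • x + θ ∉ A} = volume Aᶜ := by
      have h1 : (volume : Measure T) ((fun x => x + θ) ⁻¹' Aᶜ) = volume Aᶜ :=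
        measure_preimage_add_right _ _ _
      have h2 : (volume : Measure T) ((fun x : T => b • x) ⁻¹' ((fun x => x + θ) ⁻¹' Aᶜ))
          = volume ((fun x : T => x + θ) ⁻¹' Aᶜ) :=
        (mp_vol hb).measure_preimage ((measurable_add_const θ) hA.compl).nullMeasurableSet
      rw [← h1, ← h2]
      rfl
    have h1 := hle {x | a • x ∈ A}
    rw [Measure.smul_apply, smul_eq_mul, e1] at h1
    rw [e2]
    calc (c : ℝ≥0∞) = c * ((volume : Measure T) A + volume Aᶜ) := by
          rw [measure_add_measure_compl hA]; simp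
      _ = c * (volume : Measure T) A + c * volume Aᶜ := by ring
      _ ≤ μ {x | a • x ∈ A} + 1 * volume Aᶜ := by gcongr
      _ = _ := by rw [one_mul]
  have hp' : MeasurePreserving (fun x : T => p • x) (volume : Measure T) volume :=
    (AddCircle.ergodic_nsmul (by omega : 1 < p)).toMeasurePreserving
  have hq' : MeasurePreserving (fun x : T => q • x) (volume : Measure T) volume :=
    (AddCircle.ergodic_nsmul (by omega : 1 < q)).toMeasurePreserving
  have huniv : {θ : T | ∃ ν : Measure T, IsProbabilityMeasure ν ∧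
      MeasurePreserving (fun x : T => p • x) ν ν ∧ MeasurePreserving (fun x : T => q • x) ν ν ∧
      Ov c a b μ ν θ} = univ := by
    rw [eq_univ_iff_forall]
    exact fun θ => ⟨volume, inferInstance, hp', hq', hall θ⟩
  rw [huniv] at hfin
  have : Infinite T := by
    refine Infinite.of_injective (fun n : ℕ => (n : ℕ) • ((Real.sqrt 2 : ℝ) : T)) ?_
    exact injective_nsmul_iff_not_isOfFinAddOrder.2 (not_fin irrational_sqrt_two)
  exact Set.infinite_univ hfin

end Pool.Agent.R477.XQ
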